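import Mathlib.Order.Filter.AtTopBot.Basic
import Mathlib.Order.ConditionallyCompleteLattice.Basic
import Mathlib.Algebra.Order.Archimedean.Real.Basic
import Mathlib.Topology.Order.MonotoneConvergence
import Mathlib.Topology.Instances.Real.Lemmas
import Mathlib.Tactic

/-!
# The ascending chain condition for minimal log discrepancies and powers of `ω`

Fix a set `Γ` of coefficients and let `Ω_k` be the set of the minimal log discrepancies `≥ 0` at closed
points of log pairs of dimension `k` with coefficients in `Γ`. Products of pairs give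
`Ω_k + Ω_l ⊆ Ω_{k+l}`, and `1 ∈ Ω_1`. We show: if `Ω_k` contains a bounded strictly increasing sequence,
then every `Ω_K`, `K ≥ k`, contains a strictly increasing copy of the ordinal `ω^⌊K/k⌋`; so the ascending
chain condition for all `Ω_k` is equivalent to the much weaker statement that for every `c > 0` there are
arbitrarily large `K` such that `Ω_K` is bounded and contains no strictly increasing copy of `ω^n` with
`n ≥ c K`.
-/

set_option autoImplicit false

namespace Pool.Agent.Results.MP_df5e61_ag.OrdinalPowers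

open Filter Topology

/-- the lexicographic order of `ℕ^n`, whose order type is `ω^n` -/
def LexLt {n : ℕ} (x y : Fin n → ℕ) : Prop := ∃ i, (∀ j < i, x j = y j) ∧ x i < y i

/-- `S` contains a strictly increasing copy of the ordinal `ω^n` -/
def HasPower (n : ℕ) (S : Set ℝ) : Prop :=
  ∃ φ : (Fin n → ℕ) → ℝ, (∀ x, φ x ∈ S) ∧ ∀ x y, LexLt x y → φ x < φ y

/-- the ascending chain condition: there is no strictly increasing sequence in `S` -/
def ACC (S : Set ℝ) : Prop := ¬ ∃ a : ℕ → ℝ, StrictMono a ∧ ∀ i, a i ∈ S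

/-- The sets `Ω_k` of minimal log discrepancies, with their known properties. -/
structure IsMld (Om : ℕ → Set ℝ) : Prop where
  /-- minimal log discrepancies are additive for products of pairs -/
  add : ∀ k l x y, x ∈ Om k → y ∈ Om l → x + y ∈ Om (k + l)
  /-- the affine line -/
  one : (1 : ℝ) ∈ Om 1

variable {Om : ℕ → Set ℝ}

theorem lexLt_succ {n : ℕ} {x y : Fin (n + 1) → ℕ} (h : LexLt x y) :
    x 0 < y 0 ∨ (x 0 = y 0 ∧ LexLt (Fin.tail x) (Fin.tail y)) := by
  obtain ⟨i, hi, hlt⟩ := h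
  induction i using Fin.cases with
  | zero => exact Or.inl hlt
  | succ i =>
    refine Or.inr ⟨hi 0 (Fin.succ_pos i), i, fun j hj => hi j.succ (Fin.succ_lt_succ_iff.2 hj), hlt⟩

/-- sums of `n + 1` members of a strictly increasing sequence with limit `L` contain a copy of
`ω^(n+1)` which is near `(n + 1) L` -/
theorem power_near (hO : IsMld Om) {k : ℕ} {a : ℕ → ℝ} (ha : StrictMono a) (hk : ∀ i, a i ∈ Om k)
    {L : ℝ} (hL : ∀ i, a i < L) (hlim : ∀ δ : ℝ, 0 < δ → ∃ p, ∀ q, p ≤ q → L - δ < a q) (n : ℕ) :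
    ∀ δ : ℝ, 0 < δ → ∃ φ : (Fin (n + 1) → ℕ) → ℝ, (∀ x, φ x ∈ Om ((n + 1) * k)) ∧
      (∀ x y, LexLt x y → φ x < φ y) ∧ ∀ x, (n + 1) * L - δ < φ x ∧ φ x < (n + 1) * L := by
  induction n with
  | zero =>
    intro δ hδ
    obtain ⟨p, hp⟩ := hlim δ hδ
    refine ⟨fun x => a (p + x 0), fun x => by simpa using hk _, fun x y h => ?_, fun x => ?_⟩
    · rcases lexLt_succ h with h | ⟨-, i, -⟩
      · exact ha (by omega)
      · exact i.elim0
    · have h1 := hp (p + x 0) (by omega)
      have h2 := hL (p + x 0)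
      constructor <;> push_cast <;> linarith
  | succ n ih =>
    intro δ hδ
    obtain ⟨p, hp⟩ := hlim (δ / 2) (by positivity)
    have hpos : ∀ q : ℕ, 0 < min (δ / 2) (a (q + 1) - a q) := fun q =>
      lt_min (by positivity) (sub_pos.2 (ha (Nat.lt_succ_self q)))
    choose φ h1 h2 h3 using fun q : ℕ => ih (min (δ / 2) (a (q + 1) - a q)) (hpos q)
    refine ⟨fun x => a (p + x 0 + 1) + φ (p + x 0) (Fin.tail x), fun x => ?_, fun x y h => ?_,
      fun x => ?_⟩
    · have h4 := hO.add _ _ _ _ (hk (p + x 0 + 1)) (h1 (p + x 0) (Fin.tail x))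
      have e : k + (n + 1) * k = (n + 1 + 1) * k := by ring
      rwa [e] at h4
    · rcases lexLt_succ h with h | ⟨h, h'⟩
      · have h4 := (h3 (p + x 0) (Fin.tail x)).2
        have h5 := (h3 (p + y 0) (Fin.tail y)).1
        have h6 : min (δ / 2) (a (p + y 0 + 1) - a (p + y 0)) ≤ a (p + y 0 + 1) - a (p + y 0) :=
          min_le_right _ _
        have h7 : a (p + x 0 + 1) ≤ a (p + y 0) := ha.monotone (by omega)
        show a (p + x 0 + 1) + _ < a (p + y 0 + 1) + _
        linarith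
      · show a (p + x 0 + 1) + _ < a (p + y 0 + 1) + _
        rw [h]
        have := h2 (p + y 0) _ _ h'
        linarith
    · have h4 := h3 (p + x 0) (Fin.tail x)
      have h5 : min (δ / 2) (a (p + x 0 + 1) - a (p + x 0)) ≤ δ / 2 := min_le_left _ _
      have h6 := hp (p + x 0 + 1) (by omega)
      have h7 := hL (p + x 0 + 1)
      have e : ((n + 1 : ℕ) + 1 : ℝ) * L = L + ((n : ℝ) + 1) * L := by push_cast; ring
      rw [e]
      constructor
      · show _ < a (p + x 0 + 1) + φ (p + x 0) (Fin.tail x)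
        linarith [h4.1]
      · show a (p + x 0 + 1) + φ (p + x 0) (Fin.tail x) < _
        linarith [h4.2]

theorem shift_mem (hO : IsMld Om) (m : ℕ) : ∀ (k : ℕ) (x : ℝ), x ∈ Om k → x + m ∈ Om (k + m) := by
  induction m with
  | zero => exact fun k x hx => by simpa using hx
  | succ m ih =>
    intro k x hx
    have h1 := hO.add _ _ _ _ (ih k x hx) hO.one
    have e : x + ((m + 1 : ℕ) : ℝ) = x + m + 1 := by push_cast; ring
    rw [e]
    exact h1

/-- a bounded strictly increasing sequence in `Ω_k` gives a copy of `ω^⌊K/k⌋` in `Ω_K` -/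
theorem powers (hO : IsMld Om) {k : ℕ} (hk0 : 1 ≤ k) {a : ℕ → ℝ} (ha : StrictMono a)
    (hk : ∀ i, a i ∈ Om k) (hb : BddAbove (Set.range a)) (K : ℕ) (hK : k ≤ K) :
    HasPower (K / k) (Om K) := by
  have hq : 0 < K / k := Nat.div_pos hK hk0
  obtain ⟨n, hn⟩ : ∃ n, K / k = n + 1 := ⟨K / k - 1, by omega⟩
  have ht := tendsto_atTop_ciSup ha.monotone hb
  have hL : ∀ i, a i < ⨆ j, a j := fun i =>
    (ha (Nat.lt_succ_self i)).trans_le (le_ciSup hb (i + 1))
  obtain ⟨φ, h1, h2, -⟩ := power_near hO ha hk hL (fun δ hδ => by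
    have h3 := ht.eventually (lt_mem_nhds (show (⨆ j, a j) - δ < ⨆ j, a j by linarith))
    exact eventually_atTop.1 h3) n 1 one_pos
  rw [hn]
  refine ⟨fun x => φ x + (K % k : ℕ), fun x => ?_, fun x y h => ?_⟩
  · have h3 := shift_mem hO (K % k) _ _ (h1 x)
    have e : (n + 1) * k + K % k = K := by
      rw [← hn, mul_comm]
      exact Nat.div_add_mod K k
    rwa [e] at h3
  · have := h2 x y h
    show φ x + _ < φ y + _
    linarith

theorem not_acc_of_power {n : ℕ} (hn : 1 ≤ n) {S : Set ℝ} (h : HasPower n S) : ¬ ACC S := by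
  obtain ⟨m, rfl⟩ : ∃ m, n = m + 1 := ⟨n - 1, by omega⟩
  obtain ⟨φ, h1, h2⟩ := h
  refine not_not.2 ⟨fun i => φ fun _ => i, strictMono_nat_of_lt_succ fun i => ?_, fun i => h1 _⟩
  exact h2 _ _ ⟨0, fun j hj => absurd hj (by simp), Nat.lt_succ_self i⟩

theorem bdd_of_acc {S : Set ℝ} (h : ACC S) : BddAbove S := by
  by_contra hb
  refine h ?_
  have h1 : ∀ b : ℝ, ∃ x ∈ S, b < x := fun b => not_bddAbove_iff.1 hb b
  choose g hg1 hg2 using h1
  refine ⟨fun n => Nat.rec (g 0) (fun _ x => g x) n, strictMono_nat_of_lt_succ fun n => hg2 _,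
    fun n => ?_⟩
  cases n with
  | zero => exact hg1 _
  | succ n => exact hg1 _

/-- **The ascending chain condition for minimal log discrepancies.** -/
theorem result (Om : ℕ → Set ℝ) (hO : IsMld Om) :
    (∀ k : ℕ, 1 ≤ k → ∀ a : ℕ → ℝ, StrictMono a → (∀ i, a i ∈ Om k) → BddAbove (Set.range a) →
      ∀ K : ℕ, k ≤ K → HasPower (K / k) (Om K)) ∧
    ((∀ k : ℕ, 1 ≤ k → ACC (Om k)) ↔ ∀ c : ℝ, 0 < c → ∃ᶠ K : ℕ in atTop, BddAbove (Om K) ∧
      ∀ n : ℕ, c * K ≤ n → ¬ HasPower n (Om K)) := by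
  refine ⟨fun k hk0 a ha hk hb K hK => powers hO hk0 ha hk hb K hK, fun h c hc => ?_,
    fun h k hk0 => ?_⟩
  · refine ((eventually_ge_atTop 1).mono fun K hK => ⟨bdd_of_acc (h K hK), fun n hn hp => ?_⟩).frequently
    have h1 : (0 : ℝ) < n := by
      have : (0 : ℝ) < c * K := by
        have : (0 : ℝ) < K := by exact_mod_cast hK
        positivity
      linarith
    have h2 : 1 ≤ n := by exact_mod_cast h1
    exact not_acc_of_power h2 hp (h K hK)
  · rintro ⟨a, ha, hk⟩
    have hkR : (0 : ℝ) < k := by exact_mod_cast hk0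
    obtain ⟨K, hK, hbdd, hno⟩ := (frequently_atTop.1 (h (1 / (2 * k)) (by positivity))) k
    have hb : BddAbove (Set.range a) := by
      obtain ⟨B, hB⟩ := hbdd
      refine ⟨B, ?_⟩
      rintro _ ⟨i, rfl⟩
      have h1 := shift_mem hO (K - k) _ _ (hk i)
      rw [show k + (K - k) = K by omega] at h1
      have h2 := hB h1
      have h3 : (0 : ℝ) ≤ ((K - k : ℕ) : ℝ) := Nat.cast_nonneg _
      linarith
    refine hno (K / k) ?_ (powers hO hk0 ha hk hb K hK)
    have h1 : K < K / k * k + k := Nat.lt_div_mul_add (a := K) hk0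
    have h2 : 1 ≤ K / k := Nat.div_pos hK hk0
    have h3 : K ≤ K / k * (2 * k) := by nlinarith
    rw [one_div, inv_mul_le_iff₀ (by positivity)]
    have h4 : (K : ℝ) ≤ ((K / k : ℕ) : ℝ) * (2 * k) := by exact_mod_cast h3
    linarith

end Pool.Agent.Results.MP_df5e61_ag.OrdinalPowers
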