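import Mathlib
import Pool.Agent.TH165.ACC.NFin

/-!
# The ascending chain condition for minimal log discrepancies on toric germs

`ToricGerm n K`: an affine toric variety `X` of dimension `n` with function field `K` and with a
fixed point `P`, given by any strictly convex rational cone of dimension `n` (simplicial or not).
The boundary `B` is an arbitrary effective `ℝ`-divisor on `X`, toric or not, with coefficients in a
DCC set `Γ`, such that `K_X + B` is `ℝ`-Cartier at `P`, with the local equation `e`. The minimal log
discrepancy `m` of the germ `(X ∋ P, B)` is the minimum of the log discrepancies of *all* prime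
divisors over `X` with centre `P`.

The assumption on the boundary is that `B` is nondegenerate at `P` (its components are components
of the members of a system of polynomials which is nondegenerate with respect to the Newton
polyhedra), or, more generally, that the minimal log discrepancy is the log discrepancy of some
monomial valuation.
-/

set_option autoImplicit false

namespace Pool.Agent.Results.MP_df5e61_ag.ToricNondegenerate

open Pool.Agent.TH165.ACC Pool.Agent.W497.Mld Pool.Agent.H436R3.KT

/-- For every `n` and every DCC set `Γ`, the minimal log discrepancies `m ≥ 0` of all germs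
`(X ∋ P, B)`, where `X ∋ P` is a toric germ of dimension `n` and `B` is a boundary with coefficients
in `Γ` which is nondegenerate at `P`, or such that `m` is the log discrepancy of a monomial
valuation, form an ACC set. -/
theorem result (n : ℕ) (Γ : Set ℝ) (hΓ : Pool.Agent.TH165.ACC.IsDCC Γ) :
    IsACC {m : ℝ | 0 ≤ m ∧
      ∃ (g : ToricGerm n (FractionRing (MvPolynomial (Fin n) ℂ))) (B : EffDiv g.X)
        (e : LocEq B g.P), CoeffIn B Γ ∧ Pool.Agent.W497.Mld.IsMld e m ∧
          (NondegBoundary g B ∨ Computed e m)} := by
  intro u hu hmem
  refine geo_acc' (n := n) (K := FractionRing (MvPolynomial (Fin n) ℂ)) hΓ u hu fun k => ?_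
  obtain ⟨h0, g, B, e, hB, hm, hc⟩ := hmem k
  exact ⟨h0, g, B, e, hB, hm, hc.symm⟩

end Pool.Agent.Results.MP_df5e61_ag.ToricNondegenerate
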